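import Pool.Agent.H19.QT.Full
import Pool.Agent.H98.Code.Minor

set_option autoImplicit false

/-!
Minors of a code at a root `e` (MP_a46c6f_co, notes 6830 (1), 6859 (1), 6860 (1)): `Q` is a set of
parts of the full state `D` at `e`; they are smoothed with the letters `D`, except for the other
letter at one vertex `h M` of every part `M` of `Q`.
-/

namespace Pool.Agent.H19.QM

open Finset Pool.Agent.H98.Code Pool.Agent.H19.QT

variable {V : Type} [Fintype V] [DecidableEq V]

/-- the parts of a state: a partition of `V - e` into supports of words of the state -/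
structure Parts (L : Submodule (ZMod 2) (V → K)) (e : V) (D : V → K) (P : Finset (Finset V)) :
    Prop where
  ne : ∀ M ∈ P, M ≠ ∅
  nmem : ∀ M ∈ P, e ∉ M
  word : ∀ M ∈ P, pw D e M ∈ L
  disj : ∀ M ∈ P, ∀ N ∈ P, M ≠ N → Disjoint M N
  cover : ∀ v, v ≠ e → ∃ M ∈ P, v ∈ M
  union : ∀ u, KD L D e u → ∀ M ∈ P, M ⊆ sup e u ∨ Disjoint M (sup e u)

theorem exists_parts {L : Submodule (ZMod 2) (V → K)} {e : V} {D : V → K} (h : Hyp L e D) :
    ∃ P, Parts L e D P := by
  obtain ⟨P, h1, h2, h3, h4⟩ := h.decomp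
  exact ⟨P, ⟨fun M hM => (h1 M hM).1, fun M hM => (h1 M hM).2.1, fun M hM => (h1 M hM).2.2,
    h2, h3, h4⟩⟩

/-- the letters for the smoothing -/
def sg (D : V → K) (Q : Finset (Finset V)) (h : Finset V → V) (v : V) : K :=
  if ∃ M ∈ Q, v = h M then D v + z else D v

/-- the vertices which are kept -/
abbrev W (Q : Finset (Finset V)) : Type := {v : V // ∀ M ∈ Q, v ∉ M}

/-- the minor -/
def N (L : Submodule (ZMod 2) (V → K)) (D : V → K) (Q : Finset (Finset V)) (h : Finset V → V) :
    Submodule (ZMod 2) (W Q → K) :=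
  Minor L (Subtype.val : W Q → V) (sg D Q h)

theorem mem_range_iff (Q : Finset (Finset V)) (v : V) :
    v ∈ Set.range (Subtype.val : W Q → V) ↔ ∀ M ∈ Q, v ∉ M := by
  constructor
  · rintro ⟨w, rfl⟩
    exact w.2
  · intro h
    exact ⟨⟨v, h⟩, rfl⟩

theorem nmem_range_iff (Q : Finset (Finset V)) (v : V) :
    v ∉ Set.range (Subtype.val : W Q → V) ↔ ∃ M ∈ Q, v ∈ M := by
  rw [mem_range_iff]
  push Not
  rfl

section
variable {L : Submodule (ZMod 2) (V → K)} {e : V} {D : V → K} {P Q : Finset (Finset V)}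
  {h : Finset V → V}

theorem sg_h {M : Finset V} (hM : M ∈ Q) : sg D Q h (h M) = D (h M) + z := by
  unfold sg
  rw [if_pos ⟨M, hM, rfl⟩]

theorem sg_ne (hP : Parts L e D P) (hQ : Q ⊆ P) (hh : ∀ M ∈ Q, h M ∈ M) {M : Finset V}
    (hM : M ∈ Q) {v : V} (hv : v ∈ M) (hne : v ≠ h M) : sg D Q h v = D v := by
  unfold sg
  rw [if_neg]
  rintro ⟨M', hM', hv'⟩
  by_cases hMM : M = M'
  · subst hMM
    exact hne hv'
  · have := hP.disj M (hQ hM) M' (hQ hM') hMM
    exact Finset.disjoint_left.1 this hv (hv' ▸ hh M' hM')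

theorem sg_fst (hl : ∀ v, v ≠ e → (D v).1 = 1) {v : V} (hv : v ≠ e) :
    (sg D Q h v).1 = 1 := by
  unfold sg
  split_ifs
  · rw [k_fst_add_z]
    exact hl v hv
  · exact hl v hv

theorem sg_ne_zero (hl : ∀ v, v ≠ e → (D v).1 = 1) {v : V} (hv : v ≠ e) : sg D Q h v ≠ 0 := by
  intro h0
  have := sg_fst (Q := Q) (h := h) hl hv
  rw [h0] at this
  exact absurd this (by decide)

/-- the pairing with the word of a smoothed part -/
theorem form_pw (hP : Parts L e D P) (hQ : Q ⊆ P) (hl : ∀ v, v ≠ e → (D v).1 = 1)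
    (hh : ∀ M ∈ Q, h M ∈ M) {M : Finset V} (hM : M ∈ Q)
    (u : V → K) (hu : ∀ v ∈ M, kf (u v) (sg D Q h v) = 0) :
    form u (pw D e M) = (u e).1 + if u (h M) = 0 then 0 else 1 := by
  have heM := hP.nmem M (hQ hM)
  have hhe : h M ≠ e := fun h0 => heM (h0 ▸ hh M hM)
  unfold form
  rw [← Finset.add_sum_erase _ _ (Finset.mem_univ e)]
  have h1 : kf (u e) (pw D e M e) = (u e).1 := by
    unfold pw
    rw [if_pos rfl, kf_z_right]
  rw [h1]
  congr 1
  have hmem : h M ∈ Finset.univ.erase e := Finset.mem_erase.2 ⟨hhe, Finset.mem_univ _⟩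
  rw [← Finset.add_sum_erase _ _ hmem]
  have h2 : ∑ x ∈ (Finset.univ.erase e).erase (h M), kf (u x) (pw D e M x) = 0 := by
    apply Finset.sum_eq_zero
    intro x hx
    have hxh : x ≠ h M := Finset.ne_of_mem_erase hx
    have hxe : x ≠ e := Finset.ne_of_mem_erase (Finset.mem_of_mem_erase hx)
    unfold pw
    rw [if_neg hxe]
    by_cases hxM : x ∈ M
    · rw [if_pos hxM, ← sg_ne hP hQ hh hM hxM hxh]
      exact hu x hxM
    · rw [if_neg hxM, kf_zero_right]
  rw [h2, add_zero]
  have h3 : pw D e M (h M) = D (h M) := by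
    unfold pw
    rw [if_neg hhe, if_pos (hh M hM)]
  rw [h3]
  have h4 := hu _ (hh M hM)
  rw [sg_h hM] at h4
  have h5 := hl (h M) hhe
  revert h4 h5
  generalize u (h M) = a
  generalize D (h M) = b
  revert a b
  decide

/-- a word of the minor which is `0` or `z` at `e` vanishes at the marked vertices -/
theorem eq_zero_h (hiso : ∀ u ∈ L, ∀ w ∈ L, form u w = 0) (hP : Parts L e D P) (hQ : Q ⊆ P)
    (hl : ∀ v, v ≠ e → (D v).1 = 1) (hh : ∀ M ∈ Q, h M ∈ M) {u : V → K} (hu : u ∈ L)
    (hue : (u e).1 = 0)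
    (hus : ∀ v, v ∉ Set.range (Subtype.val : W Q → V) → kf (u v) (sg D Q h v) = 0)
    {M : Finset V} (hM : M ∈ Q) : u (h M) = 0 := by
  have h1 := form_pw hP hQ hl hh hM u
    (fun v hv => hus v ((nmem_range_iff Q v).2 ⟨M, hM, hv⟩))
  rw [hiso u hu _ (hP.word M (hQ hM)), hue, zero_add] at h1
  by_contra hne
  rw [if_neg hne] at h1
  exact absurd h1 (by decide)

/-- a word of the minor which is `0` or `z` at `e` is `≤ D` on the smoothed parts -/
theorem le_D (hiso : ∀ u ∈ L, ∀ w ∈ L, form u w = 0) (hP : Parts L e D P) (hQ : Q ⊆ P)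
    (hl : ∀ v, v ≠ e → (D v).1 = 1) (hh : ∀ M ∈ Q, h M ∈ M) {u : V → K} (hu : u ∈ L)
    (hue : (u e).1 = 0)
    (hus : ∀ v, v ∉ Set.range (Subtype.val : W Q → V) → kf (u v) (sg D Q h v) = 0)
    {v : V} (hv : v ∉ Set.range (Subtype.val : W Q → V)) : u v = 0 ∨ u v = D v := by
  obtain ⟨M, hM, hvM⟩ := (nmem_range_iff Q v).1 hv
  by_cases hvh : v = h M
  · left
    rw [hvh]
    exact eq_zero_h hiso hP hQ hl hh hu hue hus hM
  · have h1 := hus v hv
    have hve : v ≠ e := fun h0 => hP.nmem M (hQ hM) (h0 ▸ hvM)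
    rw [kf_eq_zero_iff _ _ (sg_ne_zero hl hve), sg_ne hP hQ hh hM hvM hvh] at h1
    exact h1

/-- **(a)** no `{0,z}`-words -/
theorem noZ (H : Hyp L e D) (hz : NoZ L) (hP : Parts L e D P) (hQ : Q ⊆ P)
    (hh : ∀ M ∈ Q, h M ∈ M) : NoZ (N L D Q h) := by
  classical
  rintro a ⟨u, hu, hus, rfl⟩ ha
  have heW : ∀ M ∈ Q, e ∉ M := fun M hM => hP.nmem M (hQ hM)
  have hue : (u e).1 = 0 := ha ⟨e, heW⟩
  have hle : ∀ v, v ∉ Set.range (Subtype.val : W Q → V) → u v = 0 ∨ u v = D v :=
    fun v hv => le_D H.iso hP hQ H.letter hh hu hue hus hv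
  have hW1 : ∀ v, v ∈ Set.range (Subtype.val : W Q → V) → (u v).1 = 0 := by
    rintro v ⟨w, rfl⟩
    exact ha w
  set D' : V → K := fun v => if v ∈ Set.range (Subtype.val : W Q → V) then D v + u v else D v
    with hD'
  obtain ⟨t, ht, htt⟩ := H.exists_total
  have H' : Hyp L e D' := by
    refine ⟨H.iso, H.noz, H.split, ?_, ?_⟩
    · intro v hv
      simp only [hD']
      split_ifs with hvW
      · rw [Prod.fst_add, H.letter v hv, hW1 v hvW, add_zero]
      · exact H.letter v hv
    · intro v hv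
      by_cases hvW : v ∈ Set.range (Subtype.val : W Q → V)
      · refine ⟨u + t, ⟨L.add_mem hu ht.1, ?_, ?_⟩, ?_⟩
        · intro x hx
          rw [Pi.add_apply, htt x hx]
          simp only [hD']
          by_cases hxW : x ∈ Set.range (Subtype.val : W Q → V)
          · right
            rw [if_pos hxW, add_comm]
          · rw [if_neg hxW]
            rcases hle x hxW with h1 | h1
            · right; rw [h1, zero_add]
            · left; rw [h1, k_add_self]
        · have h1 : (u e + t e).1 = 0 := by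
            rw [Prod.fst_add, hue]
            rcases ht.2.2 with h1 | h1
            · rw [h1]; decide
            · rw [h1]; decide
          exact K_cases _ h1
        · rw [Pi.add_apply, htt v hv]
          intro h0
          have h1 : (u v + D v).1 = 0 := by rw [h0]; rfl
          rw [Prod.fst_add, H.letter v hv, hW1 v hvW] at h1
          exact absurd h1 (by decide)
      · obtain ⟨M, hM, hvM⟩ := (nmem_range_iff Q v).1 hvW
        refine ⟨pw D e M, ⟨hP.word M (hQ hM), ?_, Or.inr (by simp [pw])⟩, ?_⟩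
        · intro x hx
          unfold pw
          rw [if_neg hx]
          by_cases hxM : x ∈ M
          · right
            rw [if_pos hxM]
            simp only [hD']
            rw [if_neg]
            exact (nmem_range_iff Q x).2 ⟨M, hM, hxM⟩
          · left; rw [if_neg hxM]
        · unfold pw
          rw [if_neg hv, if_pos hvM]
          exact H.D_ne hv
  have huniq := H.unique H' hz
  have hW0 : ∀ v, v ≠ e → v ∈ Set.range (Subtype.val : W Q → V) → u v = 0 := by
    intro v hv hvW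
    have h1 := huniq v hv
    simp only [hD'] at h1
    rw [if_pos hvW] at h1
    exact left_eq_add.mp h1
  have hKD : KD L D e u := by
    refine ⟨hu, ?_, K_cases _ hue⟩
    intro v hv
    by_cases hvW : v ∈ Set.range (Subtype.val : W Q → V)
    · exact Or.inl (hW0 v hv hvW)
    · exact hle v hvW
  have h0 : ∀ v, v ≠ e → u v = 0 := by
    intro v hv
    by_cases hvW : v ∈ Set.range (Subtype.val : W Q → V)
    · exact hW0 v hv hvW
    · obtain ⟨M, hM, hvM⟩ := (nmem_range_iff Q v).1 hvW
      have hh0 : u (h M) = 0 := eq_zero_h H.iso hP hQ H.letter hh hu hue hus hM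
      rcases hP.union u hKD M (hQ hM) with h1 | h1
      · exact absurd hh0 (Pool.Agent.H19.QT.mem_sup.1 (h1 (hh M hM))).2
      · by_contra hne
        exact Finset.disjoint_left.1 h1 hvM (Pool.Agent.H19.QT.mem_sup.2 ⟨hv, hne⟩)
  have he0 : u e = 0 := by
    rcases K_cases _ hue with h1 | h1
    · exact h1
    · exact absurd h1 (H.noz u hu h0)
  funext w
  by_cases hw : (w : V) = e
  · rw [hw]; exact he0
  · exact h0 _ hw

/-- the minor is a code -/
theorem isCode (hL : IsCode L) (hP : Parts L e D P) (hQ : Q ⊆ P)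
    (hl : ∀ v, v ≠ e → (D v).1 = 1) : IsCode (N L D Q h) := by
  classical
  refine minor_isCode hL Subtype.val_injective ?_
  intro v hv
  obtain ⟨M, hM, hvM⟩ := (nmem_range_iff Q v).1 hv
  exact sg_ne_zero hl (fun h0 => hP.nmem M (hQ hM) (h0 ▸ hvM))

end

end Pool.Agent.H19.QM
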